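import Mathlib

/-!
Pencils of Ceva type, heavy multinets and multinets induced from the arrangements `Q_n`.
-/

open MvPolynomial

namespace Pool.Agent.P.MP_7bc845_ag

/-- Polynomials in three variables over `ℂ`. -/
abbrev Form : Type := MvPolynomial (Fin 3) ℂ

/-- A nonzero linear form. -/
def IsLine (α : Form) : Prop := α ≠ 0 ∧ α.IsHomogeneous 1

/-- A completely reducible form: a nonempty product of nonzero linear forms. -/
def CompRed (F : Form) : Prop := ∃ s : Multiset Form, s ≠ 0 ∧ (∀ α ∈ s, IsLine α) ∧ F = s.prod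

/-- A pencil of degree `d`: a two-dimensional space of forms of degree `d`. -/
def IsPencil (d : ℕ) (P : Submodule ℂ Form) : Prop :=
  Module.finrank ℂ P = 2 ∧ ∀ F ∈ P, F.IsHomogeneous d

/-- `α` and `β` are linear components of `F` having a common point outside the base of `P`. -/
def MeetOutside (P : Submodule ℂ Form) (F α β : Form) : Prop :=
  IsLine α ∧ IsLine β ∧ α ∣ F ∧ β ∣ F ∧
    ∃ v : Fin 3 → ℂ, eval v α = 0 ∧ eval v β = 0 ∧ ∃ G ∈ P, eval v G ≠ 0

/-- A pencil of Ceva type: no fixed component, three completely reducible fibers, every reduced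
completely reducible fiber has two distinct components meeting outside the base, and moreover
every completely reducible fiber is connected outside the base. -/
def Ceva (P : Submodule ℂ Form) : Prop :=
  (∀ G : Form, (∀ F ∈ P, G ∣ F) → IsUnit G) ∧
  (∃ F : Fin 3 → Form, (∀ i, F i ∈ P ∧ CompRed (F i)) ∧
    ∀ i j, i ≠ j → ¬ Associated (F i) (F j)) ∧
  (∀ F ∈ P, CompRed F → Squarefree F → ∃ α β, ¬ Associated α β ∧ MeetOutside P F α β) ∧
  ∀ F ∈ P, CompRed F → ∀ α β, IsLine α → IsLine β → α ∣ F → β ∣ F →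
    Relation.ReflTransGen (MeetOutside P F) α β

/-- Heavy: some completely reducible fiber has a multiple line. -/
def Heavy (P : Submodule ℂ Form) : Prop := ∃ F ∈ P, CompRed F ∧ ¬ Squarefree F

/-- The three factors `F_1, F_2, F_3` of `Q_n` evaluated at four forms. -/
noncomputable def Qblock (n : ℕ) (x : Fin 4 → Form) : Fin 3 → Form :=
  ![(x 0 ^ n - x 1 ^ n) * (x 2 ^ n - x 3 ^ n), (x 0 ^ n - x 2 ^ n) * (x 1 ^ n - x 3 ^ n),
    (x 0 ^ n - x 3 ^ n) * (x 1 ^ n - x 2 ^ n)]

/-- The multinet of `P` is induced from some `Q_n`: for linear forms `x_0, …, x_3` spanning the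
space of linear forms (the coordinates of `ℙ³` restricted to a plane `H ≅ ℙ²`), with no `F_i`
vanishing on `H`, the completely reducible fibers of `P` are, up to scalars, the restrictions of
`F_1, F_2, F_3` divided by their common factor `D`. -/
def Induced (P : Submodule ℂ Form) : Prop :=
  ∃ n : ℕ, 1 ≤ n ∧ ∃ x : Fin 4 → Form, (∀ i, (x i).IsHomogeneous 1) ∧
    Module.finrank ℂ (Submodule.span ℂ (Set.range x)) = 3 ∧
    ∃ (D : Form) (G : Fin 3 → Form), (∀ i, Qblock n x i ≠ 0 ∧ Qblock n x i = D * G i) ∧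
      (∀ E : Form, (∀ i, E ∣ G i) → IsUnit E) ∧
      ∀ F : Form, (F ∈ P ∧ CompRed F) ↔ ∃ i, Associated F (G i)

end Pool.Agent.P.MP_7bc845_ag
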