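import Pool.Agent.P.MP_7bc845_ag.Lines

/-!
A heavy (3,6)-multinet with one double line that is not induced from any `Q_n`.
-/

open MvPolynomial

namespace Pool.Agent.P.MP_7bc845_ag

noncomputable def s1 : List Form :=
  [lin 0 0 7, lin 0 0 1, lin (-2) 1 0, lin 4 5 0, lin (-8) (-5) 60, lin 8 5 60]
noncomputable def s2 : List Form :=
  [lin 1 0 (-30), lin 1 0 30, lin 0 1 (-4), lin 0 1 4, lin 1 1 (-15), lin 1 1 15]
noncomputable def s3 : List Form :=
  [lin 1 0 (-5), lin 1 0 5, lin 0 1 (-60), lin 0 1 60, lin 1 1 (-6), lin 1 1 6]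

lemma l1 : ∀ α ∈ s1, IsLine α := by
  simp only [s1, List.forall_mem_cons, List.not_mem_nil, false_imp_iff, implies_true, and_true]
  refine ⟨?_, ?_, ?_, ?_, ?_, ?_⟩ <;> apply isLine_lin <;> norm_num
lemma l2 : ∀ α ∈ s2, IsLine α := by
  simp only [s2, List.forall_mem_cons, List.not_mem_nil, false_imp_iff, implies_true, and_true]
  refine ⟨?_, ?_, ?_, ?_, ?_, ?_⟩ <;> apply isLine_lin <;> norm_num
lemma l3 : ∀ α ∈ s3, IsLine α := by
  simp only [s3, List.forall_mem_cons, List.not_mem_nil, false_imp_iff, implies_true, and_true]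
  refine ⟨?_, ?_, ?_, ?_, ?_, ?_⟩ <;> apply isLine_lin <;> norm_num

lemma ev1 (x y w : ℂ) : eval ![x, y, w] s1.prod = 7 * w * w * (y - 2 * x) * (4 * x + 5 * y)
    * (60 * w - 8 * x - 5 * y) * (60 * w + 8 * x + 5 * y) := by
  simp [s1]
  ring
lemma ev2 (x y w : ℂ) : eval ![x, y, w] s2.prod = (x - 30 * w) * (x + 30 * w) * (y - 4 * w)
    * (y + 4 * w) * (x + y - 15 * w) * (x + y + 15 * w) := by
  simp [s2]
  ring
lemma ev3 (x y w : ℂ) : eval ![x, y, w] s3.prod = (x - 5 * w) * (x + 5 * w) * (y - 60 * w)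
    * (y + 60 * w) * (x + y - 6 * w) * (x + y + 6 * w) := by
  simp [s3]
  ring

lemma rel : s1.prod = s2.prod - s3.prod := by
  apply MvPolynomial.funext
  intro v
  have hv : v = ![v 0, v 1, v 2] := by
    ext i
    fin_cases i <;> rfl
  rw [hv, map_sub, ev1, ev2, ev3]
  ring

/-- The pencil. -/
noncomputable def P0 : Submodule ℂ Form := Submodule.span ℂ {s2.prod, s3.prod}

lemma m2 : s2.prod ∈ P0 := Submodule.subset_span (by simp)
lemma m3 : s3.prod ∈ P0 := Submodule.subset_span (by simp)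
lemma m1 : s1.prod ∈ P0 := rel ▸ P0.sub_mem m2 m3

lemma compRed_list {s : List Form} (h0 : s ≠ []) (h : ∀ α ∈ s, IsLine α) : CompRed s.prod :=
  ⟨(s : Multiset Form), by simpa using h0, by simpa using h, by simp⟩

lemma hom_list {s : List Form} (h : ∀ α ∈ s, IsLine α) : s.prod.IsHomogeneous s.length := by
  induction s with
  | nil => simpa using isHomogeneous_one (Fin 3) ℂ
  | cons a s ih =>
    rw [List.prod_cons, List.length_cons, add_comm]
    exact (h a (by simp)).2.mul (ih fun b hb => h b (by simp [hb]))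

lemma pencil_of (F G : Form) (h : LinearIndependent ℂ ![F, G]) (hF : F.IsHomogeneous 6)
    (hG : G.IsHomogeneous 6) : IsPencil 6 (Submodule.span ℂ ({F, G} : Set Form)) := by
  constructor
  · have := finrank_span_eq_card h
    rw [Matrix.range_cons, Matrix.range_cons, Matrix.range_empty, Set.union_empty,
      Set.singleton_union] at this
    exact this.trans (Fintype.card_fin 2)
  · intro H hH
    obtain ⟨a, b, rfl⟩ := Submodule.mem_span_pair.mp hH
    rw [smul_eq_C_mul, smul_eq_C_mul]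
    exact (hF.C_mul a).add (hG.C_mul b)

lemma pencil : IsPencil 6 P0 := by
  refine pencil_of _ _ ?_ (hom_list l2) (hom_list l3)
  rw [LinearIndependent.pair_iff]
  intro a b hab
  have h1 := congrArg (eval ![5, 0, 1]) hab
  have h2 := congrArg (eval ![30, 0, 1]) hab
  simp only [smul_eq_C_mul, map_add, map_mul, eval_C, ev2, ev3, map_zero] at h1 h2
  norm_num at h1 h2
  exact ⟨h1, h2⟩

lemma line_dvd_list {s : List Form} (h : ∀ α ∈ s, IsLine α) {q : Form} (hq : Prime q)
    (hd : q ∣ s.prod) : ∃ l ∈ s, l ∣ q := by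
  obtain ⟨l, hl, hql⟩ := hq.dvd_prod_iff.mp hd
  exact ⟨l, hl, hq.irreducible.dvd_symm (h l hl).prime.irreducible hql⟩

lemma ne_zero_list {s : List Form} (h : ∀ α ∈ s, IsLine α) : s.prod ≠ 0 :=
  List.prod_ne_zero fun h0 => (h 0 h0).1 rfl

lemma no_fixed (G : Form) (h : ∀ F ∈ P0, G ∣ F) : IsUnit G := by
  by_contra hG
  have h0 : G ≠ 0 := ne_zero_of_dvd_ne_zero (ne_zero_list l2) (h _ m2)
  obtain ⟨q, hq, hqG⟩ := WfDvdMonoid.exists_irreducible_factor hG h0
  obtain ⟨l, hl, hlq⟩ := line_dvd_list l2 hq.prime (hqG.trans (h _ m2))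
  have h3 : l ∣ s3.prod := hlq.trans (hqG.trans (h _ m3))
  simp only [s2, List.mem_cons, List.not_mem_nil, or_false] at hl
  rcases hl with rfl | rfl | rfl | rfl | rfl | rfl
  · have := eval_of_dvd h3 (v := ![30, 0, 1]) (by simp)
    norm_num [ev3] at this
  · have := eval_of_dvd h3 (v := ![-30, 0, 1]) (by simp)
    norm_num [ev3] at this
  · have := eval_of_dvd h3 (v := ![0, 4, 1]) (by simp)
    norm_num [ev3] at this
  · have := eval_of_dvd h3 (v := ![0, -4, 1]) (by simp)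
    norm_num [ev3] at this
  · have := eval_of_dvd h3 (v := ![15, 0, 1]) (by simp)
    norm_num [ev3] at this
  · have := eval_of_dvd h3 (v := ![-15, 0, 1]) (by simp)
    norm_num [ev3] at this

lemma assoc_smul {F G : Form} {a : ℂ} (hF : F ≠ 0) (h : F = a • G) : Associated F G := by
  have ha : a ≠ 0 := by
    rintro rfl
    simp [h] at hF
  rw [h, smul_eq_C_mul]
  exact associated_unit_mul_left _ _ ((isUnit_iff_ne_zero.mpr ha).map C)

lemma classify {F : Form} (hF : F ∈ P0) (hc : CompRed F) :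
    Associated F s1.prod ∨ Associated F s2.prod ∨ Associated F s3.prod := by
  obtain ⟨s, -, hs, hFs⟩ := hc
  have hF0 : F ≠ 0 := by
    rw [hFs]
    exact Multiset.prod_ne_zero fun h0 => (hs 0 h0).1 rfl
  obtain ⟨a, b, hab⟩ := Submodule.mem_span_pair.mp hF
  suffices h : b = 0 ∨ a = 0 ∨ b = -a by
    rcases h with rfl | rfl | rfl
    · exact Or.inr (Or.inl (assoc_smul hF0 (a := a) (by rw [← hab]; simp)))
    · exact Or.inr (Or.inr (assoc_smul hF0 (a := b) (by rw [← hab]; simp)))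
    · exact Or.inl (assoc_smul hF0 (a := a) (by rw [← hab, rel, smul_sub, neg_smul]; abel))
  have ev : ∀ x y w : ℂ, eval ![x, y, w] F
      = a * ((x - 30 * w) * (x + 30 * w) * (y - 4 * w)
        * (y + 4 * w) * (x + y - 15 * w) * (x + y + 15 * w))
      + b * ((x - 5 * w) * (x + 5 * w) * (y - 60 * w)
        * (y + 60 * w) * (x + y - 6 * w) * (x + y + 6 * w)) := by
    intro x y w
    rw [← hab]
    simp only [smul_eq_C_mul, map_add, map_mul, eval_C, ev2, ev3]
  have h0 : eval ![30, 60, 1] F = 0 := by rw [ev]; norm_num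
  rw [hFs, map_multiset_prod, Multiset.prod_eq_zero_iff, Multiset.mem_map] at h0
  obtain ⟨α, hα, hα0⟩ := h0
  have hd : α ∣ F := hFs ▸ Multiset.dvd_prod hα
  obtain ⟨p, q, r, rfl⟩ := exists_lin (hs α hα).2
  have on : ∀ x y w : ℂ, p * x + q * y + r * w = 0 → eval ![x, y, w] F = 0 := fun x y w h =>
    eval_of_dvd hd (by simpa using h)
  have hα1 : p * 30 + q * 60 + r = 0 := by simpa using hα0
  by_cases hq : q = 0
  · left
    have := on 30 0 1 (by rw [hq] at hα1 ⊢; linear_combination hα1)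
    rw [ev] at this
    norm_num at this
    exact this
  obtain ⟨t, ht⟩ : ∃ t : ℂ, p * (-30) + q * t + r = 0 :=
    ⟨(30 * p - r) / q, by field_simp; ring⟩
  have e0 := on (-30) t 1 (by linear_combination ht)
  have e1 := on 0 (60 + t) 2 (by linear_combination ht + hα1)
  have e2 := on 30 (120 + t) 3 (by linear_combination ht + 2 * hα1)
  rw [ev] at e0 e1 e2
  have e3 : b * ((t - 60) * (t + 60) * (t - 36) * (t - 24)) = 0 := by
    linear_combination e0 / 875
  simp only [mul_eq_zero, sub_eq_zero, add_eq_zero_iff_eq_neg] at e3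
  rcases e3 with h | ((h | h) | h) | h
  · exact Or.inl h
  · right; left
    rw [h] at e1
    norm_num at e1
    exact e1
  · right; right
    rw [h] at e2
    norm_num at e2
    linear_combination e2 / (-151165440000)
  · left
    rw [h] at e1 e2
    norm_num at e1 e2
    grind
  · left
    rw [h] at e1 e2
    norm_num at e1 e2
    grind

lemma conn {F : Form} {s : List Form} (hF : Associated F s.prod) (hl : ∀ l ∈ s, IsLine l)
    {h : Form} (hs : h ∈ s)
    (hh : ∀ l ∈ s, ∃ m ∈ s, ∃ v w : Fin 3 → ℂ, eval v l = 0 ∧ eval v m = 0 ∧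
      (∃ G ∈ P0, eval v G ≠ 0) ∧ eval w m = 0 ∧ eval w h = 0 ∧ ∃ G ∈ P0, eval w G ≠ 0)
    (α β : Form) (hα : IsLine α) (hβ : IsLine β) (h1 : α ∣ F) (h2 : β ∣ F) :
    Relation.ReflTransGen (MeetOutside P0 F) α β := by
  have dv : ∀ l ∈ s, l ∣ F := fun l hl => (List.dvd_prod hl).trans hF.symm.dvd
  have key : ∀ γ, IsLine γ → γ ∣ F → ∃ m, MeetOutside P0 F γ m ∧ MeetOutside P0 F m h := by
    intro γ hγ hd
    obtain ⟨l, hls, hlγ⟩ := line_dvd_list hl hγ.prime (hd.trans hF.dvd)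
    obtain ⟨m, hm, v, w, a1, a2, a3, a4, a5, a6⟩ := hh l hls
    exact ⟨m, ⟨hγ, hl m hm, hd, dv m hm, v, eval_of_dvd hlγ a1, a2, a3⟩,
      ⟨hl m hm, hl h hs, dv m hm, dv h hs, w, a4, a5, a6⟩⟩
  obtain ⟨m, a1, a2⟩ := key α hα h1
  obtain ⟨m', b1, b2⟩ := key β hβ h2
  exact (((Relation.ReflTransGen.single a1).tail a2).tail b2.symm).tail b1.symm

lemma out2 {x y w : ℂ} (h : (x - 30 * w) * (x + 30 * w) * (y - 4 * w)
    * (y + 4 * w) * (x + y - 15 * w) * (x + y + 15 * w) ≠ 0) : ∃ G ∈ P0, eval ![x, y, w] G ≠ 0 :=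
  ⟨_, m2, by rwa [ev2]⟩

lemma out3 {x y w : ℂ} (h : (x - 5 * w) * (x + 5 * w) * (y - 60 * w)
    * (y + 60 * w) * (x + y - 6 * w) * (x + y + 6 * w) ≠ 0) : ∃ G ∈ P0, eval ![x, y, w] G ≠ 0 :=
  ⟨_, m3, by rwa [ev3]⟩

lemma hub1 : ∀ l ∈ s1, ∃ m ∈ s1, ∃ v w : Fin 3 → ℂ, eval v l = 0 ∧ eval v m = 0 ∧
    (∃ G ∈ P0, eval v G ≠ 0) ∧ eval w m = 0 ∧ eval w (lin 0 0 1) = 0 ∧ ∃ G ∈ P0, eval w G ≠ 0 := by
  intro l hl
  refine ⟨lin 0 0 1, by simp [s1], ?_⟩
  simp only [s1, List.mem_cons, List.not_mem_nil, or_false] at hl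
  rcases hl with rfl | rfl | rfl | rfl | rfl | rfl
  · exact ⟨![1, 1, 0], ![1, 1, 0], by simp, by simp, out2 (by norm_num), by simp, by simp,
      out2 (by norm_num)⟩
  · exact ⟨![1, 1, 0], ![1, 1, 0], by simp, by simp, out2 (by norm_num), by simp, by simp,
      out2 (by norm_num)⟩
  · exact ⟨![1, 2, 0], ![1, 1, 0], by simp, by simp, out2 (by norm_num), by simp, by simp,
      out2 (by norm_num)⟩
  · exact ⟨![5, -4, 0], ![1, 1, 0], by simp; norm_num, by simp, out2 (by norm_num), by simp,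
      by simp, out2 (by norm_num)⟩
  · exact ⟨![5, -8, 0], ![1, 1, 0], by simp; norm_num, by simp, out2 (by norm_num), by simp,
      by simp, out2 (by norm_num)⟩
  · exact ⟨![5, -8, 0], ![1, 1, 0], by simp; norm_num, by simp, out2 (by norm_num), by simp,
      by simp, out2 (by norm_num)⟩

lemma hub2 : ∀ l ∈ s2, ∃ m ∈ s2, ∃ v w : Fin 3 → ℂ, eval v l = 0 ∧ eval v m = 0 ∧
    (∃ G ∈ P0, eval v G ≠ 0) ∧ eval w m = 0 ∧ eval w (lin 1 0 (-30)) = 0 ∧
      ∃ G ∈ P0, eval w G ≠ 0 := by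
  intro l hl
  simp only [s2, List.mem_cons, List.not_mem_nil, or_false] at hl
  rcases hl with rfl | rfl | rfl | rfl | rfl | rfl
  · exact ⟨lin 0 1 (-4), by simp [s2], ![30, 4, 1], ![30, 4, 1], by simp, by simp,
      out3 (by norm_num), by simp, by simp, out3 (by norm_num)⟩
  · exact ⟨lin 0 1 (-4), by simp [s2], ![-30, 4, 1], ![30, 4, 1], by simp, by simp,
      out3 (by norm_num), by simp, by simp, out3 (by norm_num)⟩
  · exact ⟨lin 0 1 (-4), by simp [s2], ![30, 4, 1], ![30, 4, 1], by simp, by simp,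
      out3 (by norm_num), by simp, by simp, out3 (by norm_num)⟩
  · exact ⟨lin 1 0 (-30), by simp [s2], ![30, -4, 1], ![30, 4, 1], by simp, by simp,
      out3 (by norm_num), by simp, by simp, out3 (by norm_num)⟩
  · exact ⟨lin 0 1 (-4), by simp [s2], ![11, 4, 1], ![30, 4, 1], by simp; norm_num, by simp,
      out3 (by norm_num), by simp, by simp, out3 (by norm_num)⟩
  · exact ⟨lin 0 1 (-4), by simp [s2], ![-19, 4, 1], ![30, 4, 1], by simp; norm_num, by simp,
      out3 (by norm_num), by simp, by simp, out3 (by norm_num)⟩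

lemma hub3 : ∀ l ∈ s3, ∃ m ∈ s3, ∃ v w : Fin 3 → ℂ, eval v l = 0 ∧ eval v m = 0 ∧
    (∃ G ∈ P0, eval v G ≠ 0) ∧ eval w m = 0 ∧ eval w (lin 1 0 (-5)) = 0 ∧
      ∃ G ∈ P0, eval w G ≠ 0 := by
  intro l hl
  simp only [s3, List.mem_cons, List.not_mem_nil, or_false] at hl
  rcases hl with rfl | rfl | rfl | rfl | rfl | rfl
  · exact ⟨lin 0 1 (-60), by simp [s3], ![5, 60, 1], ![5, 60, 1], by simp, by simp,
      out2 (by norm_num), by simp, by simp, out2 (by norm_num)⟩
  · exact ⟨lin 0 1 (-60), by simp [s3], ![-5, 60, 1], ![5, 60, 1], by simp, by simp,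
      out2 (by norm_num), by simp, by simp, out2 (by norm_num)⟩
  · exact ⟨lin 0 1 (-60), by simp [s3], ![5, 60, 1], ![5, 60, 1], by simp, by simp,
      out2 (by norm_num), by simp, by simp, out2 (by norm_num)⟩
  · exact ⟨lin 1 0 (-5), by simp [s3], ![5, -60, 1], ![5, 60, 1], by simp, by simp,
      out2 (by norm_num), by simp, by simp, out2 (by norm_num)⟩
  · exact ⟨lin 0 1 (-60), by simp [s3], ![-54, 60, 1], ![5, 60, 1], by simp; norm_num, by simp,
      out2 (by norm_num), by simp, by simp, out2 (by norm_num)⟩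
  · exact ⟨lin 0 1 (-60), by simp [s3], ![-66, 60, 1], ![5, 60, 1], by simp; norm_num, by simp,
      out2 (by norm_num), by simp, by simp, out2 (by norm_num)⟩

lemma not_assoc {F G : Form} (v : Fin 3 → ℂ) (h1 : eval v F = 0) (h2 : eval v G ≠ 0) :
    ¬ Associated F G := fun h => h2 (eval_of_dvd h.dvd h1)

lemma ceva : Ceva P0 := by
  refine ⟨no_fixed, ⟨![s1.prod, s2.prod, s3.prod], ?_, ?_⟩, ?_, ?_⟩
  · intro i
    fin_cases i
    · exact ⟨m1, compRed_list (by simp [s1]) l1⟩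
    · exact ⟨m2, compRed_list (by simp [s2]) l2⟩
    · exact ⟨m3, compRed_list (by simp [s3]) l3⟩
  · have a12 : ¬ Associated s1.prod s2.prod :=
      not_assoc ![1, 1, 0] (by rw [ev1]; norm_num) (by rw [ev2]; norm_num)
    have a13 : ¬ Associated s1.prod s3.prod :=
      not_assoc ![1, 1, 0] (by rw [ev1]; norm_num) (by rw [ev3]; norm_num)
    have a23 : ¬ Associated s2.prod s3.prod :=
      not_assoc ![30, 0, 1] (by rw [ev2]; norm_num) (by rw [ev3]; norm_num)
    intro i j hij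
    fin_cases i <;> fin_cases j
    · exact absurd rfl hij
    · exact a12
    · exact a13
    · exact fun h => a12 h.symm
    · exact absurd rfl hij
    · exact a23
    · exact fun h => a13 h.symm
    · exact fun h => a23 h.symm
    · exact absurd rfl hij
  · intro F hF hc _
    rcases classify hF hc with h | h | h
    · refine ⟨lin 0 0 1, lin (-2) 1 0, not_assoc ![1, 0, 0] (by simp) (by simp),
        l1 _ (by simp [s1]), l1 _ (by simp [s1]),
        (List.dvd_prod (by simp [s1])).trans h.symm.dvd,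
        (List.dvd_prod (by simp [s1])).trans h.symm.dvd,
        ![1, 2, 0], by simp, by simp, out2 (by norm_num)⟩
    · refine ⟨lin 1 0 (-30), lin 0 1 (-4), not_assoc ![0, 1, 0] (by simp) (by simp),
        l2 _ (by simp [s2]), l2 _ (by simp [s2]),
        (List.dvd_prod (by simp [s2])).trans h.symm.dvd,
        (List.dvd_prod (by simp [s2])).trans h.symm.dvd,
        ![30, 4, 1], by simp, by simp, out3 (by norm_num)⟩
    · refine ⟨lin 1 0 (-5), lin 0 1 (-60), not_assoc ![0, 1, 0] (by simp) (by simp),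
        l3 _ (by simp [s3]), l3 _ (by simp [s3]),
        (List.dvd_prod (by simp [s3])).trans h.symm.dvd,
        (List.dvd_prod (by simp [s3])).trans h.symm.dvd,
        ![5, 60, 1], by simp, by simp, out2 (by norm_num)⟩
  · intro F hF hc
    rcases classify hF hc with h | h | h
    · exact conn h l1 (by simp [s1]) hub1
    · exact conn h l2 (by simp [s2]) hub2
    · exact conn h l3 (by simp [s3]) hub3

lemma heavy : Heavy P0 := by
  refine ⟨_, m1, compRed_list (by simp [s1]) l1, fun h => ?_⟩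
  have h1 : lin 0 0 1 * lin 0 0 1 ∣ s1.prod := by
    refine ⟨C 7 * (lin (-2) 1 0 * lin 4 5 0 * lin (-8) (-5) 60 * lin 8 5 60), ?_⟩
    have : lin 0 0 7 = C 7 * lin 0 0 1 := by simp [lin]
    simp only [s1, List.prod_cons, List.prod_nil, this]
    ring
  exact (l1 _ (by simp [s1])).prime.not_isUnit (h _ h1)

lemma not_induced : ¬ Induced P0 := by
  rintro ⟨n, -, x, hx, -, D, G, hG, -, hP⟩
  obtain ⟨i, hi⟩ := (hP s2.prod).mp ⟨m2, compRed_list (by simp [s2]) l2⟩
  obtain ⟨v, w, hv, hw, h⟩ := Qblock_two_points hx i (hG i).1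
  have key : ∀ l ∈ s2, eval v l = 0 ∨ eval w l = 0 := fun l hl =>
    h l (l2 l hl) ((List.dvd_prod hl).trans (hi.dvd.trans ((hG i).2 ▸ Dvd.intro_left D rfl)))
  have hv' : ¬ (v 0 = 0 ∧ v 1 = 0 ∧ v 2 = 0) := fun h => hv (by
    ext j
    fin_cases j
    exacts [h.1, h.2.1, h.2.2])
  have hw' : ¬ (w 0 = 0 ∧ w 1 = 0 ∧ w 2 = 0) := fun h => hw (by
    ext j
    fin_cases j
    exacts [h.1, h.2.1, h.2.2])
  simp only [s2, List.forall_mem_cons, List.not_mem_nil, false_imp_iff, implies_true, and_true,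
    eval_lin] at key
  obtain ⟨k1, k2, k3, k4, k5, k6⟩ := key
  grind

end Pool.Agent.P.MP_7bc845_ag
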