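import Pool.Agent.P.MP_7bc845_ag.Defs

/-!
Linear forms in three variables.
-/

open MvPolynomial

namespace Pool.Agent.P.MP_7bc845_ag

/-- The linear form with coefficients `a, b, c`. -/
noncomputable def lin (a b c : ℂ) : Form := C a * X 0 + C b * X 1 + C c * X 2

@[simp] lemma eval_lin (a b c : ℂ) (v : Fin 3 → ℂ) :
    eval v (lin a b c) = a * v 0 + b * v 1 + c * v 2 := by
  simp [lin]

lemma lin_hom (a b c : ℂ) : (lin a b c).IsHomogeneous 1 :=
  (((isHomogeneous_X ℂ 0).C_mul a).add ((isHomogeneous_X ℂ 1).C_mul b)).add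
    ((isHomogeneous_X ℂ 2).C_mul c)

lemma exists_lin {α : Form} (h : α.IsHomogeneous 1) : ∃ a b c, α = lin a b c := by
  have h1 : α ∈ homogeneousSubmodule (Fin 3) ℂ 1 := h
  rw [homogeneousSubmodule_one_eq_span_X, Submodule.mem_span_range_iff_exists_fun] at h1
  obtain ⟨c, hc⟩ := h1
  refine ⟨c 0, c 1, c 2, ?_⟩
  rw [← hc, Fin.sum_univ_three, lin, smul_eq_C_mul, smul_eq_C_mul, smul_eq_C_mul]

lemma isLine_lin {a b c : ℂ} (h : a ≠ 0 ∨ b ≠ 0 ∨ c ≠ 0) : IsLine (lin a b c) := by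
  refine ⟨fun h0 => ?_, lin_hom a b c⟩
  have h1 := congrArg (eval ![1, 0, 0]) h0
  have h2 := congrArg (eval ![0, 1, 0]) h0
  have h3 := congrArg (eval ![0, 0, 1]) h0
  simp at h1 h2 h3
  tauto

lemma IsLine.prime {α : Form} (h : IsLine α) : Prime α := by
  apply Irreducible.prime
  apply irreducible_of_totalDegree_eq_one (h.2.totalDegree h.1)
  intro x hx
  rw [isUnit_iff_ne_zero]
  rintro rfl
  apply h.1
  ext i
  simpa using hx i

lemma eval_of_dvd {α F : Form} (h : α ∣ F) {v : Fin 3 → ℂ} (hv : eval v α = 0) : eval v F = 0 := by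
  obtain ⟨G, rfl⟩ := h
  simp [hv]

lemma IsLine.dvd_symm {α β : Form} (hα : IsLine α) (hβ : IsLine β) (h : α ∣ β) : β ∣ α :=
  (hα.prime.irreducible.dvd_symm hβ.prime.irreducible h)

lemma common_zero {A B : Form} (hA : A.IsHomogeneous 1) (hB : B.IsHomogeneous 1) :
    ∃ v : Fin 3 → ℂ, v ≠ 0 ∧ eval v A = 0 ∧ eval v B = 0 := by
  obtain ⟨a, b, c, rfl⟩ := exists_lin hA
  obtain ⟨a', b', c', rfl⟩ := exists_lin hB
  obtain ⟨v, hv, h⟩ := (Matrix.exists_mulVec_eq_zero_iff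
    (M := !![a, b, c; a', b', c'; 0, 0, 0])).mpr (by simp [Matrix.det_fin_three])
  have h0 := congrFun h 0
  have h1 := congrFun h 1
  simp [Matrix.mulVec, dotProduct, Fin.sum_univ_three] at h0 h1
  exact ⟨v, hv, by simpa using h0, by simpa using h1⟩

lemma cone {A B α : Form} (hA : A.IsHomogeneous 1) (hB : B.IsHomogeneous 1)
    (hα : α.IsHomogeneous 1) {n : ℕ} (hne : A ^ n - B ^ n ≠ 0) (hd : α ∣ A ^ n - B ^ n)
    {v : Fin 3 → ℂ} (h1 : eval v A = 0) (h2 : eval v B = 0) : eval v α = 0 := by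
  by_contra h3
  apply hne
  apply MvPolynomial.funext
  intro u
  obtain ⟨a, b, c, rfl⟩ := exists_lin hA
  obtain ⟨a', b', c', rfl⟩ := exists_lin hB
  obtain ⟨p, q, r, rfl⟩ := exists_lin hα
  set t : ℂ := eval u (lin p q r) / eval v (lin p q r) with ht
  have key : ∀ x y z : ℂ, eval (u - t • v) (lin x y z)
      = eval u (lin x y z) - t * eval v (lin x y z) := by
    intro x y z
    simp only [eval_lin, Pi.sub_apply, Pi.smul_apply, smul_eq_mul]
    ring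
  have h4 : eval (u - t • v) (lin p q r) = 0 := by
    rw [key, ht, div_mul_cancel₀ _ h3, sub_self]
  have h5 := eval_of_dvd hd h4
  rw [map_sub, map_pow, map_pow, key, key, h1, h2, mul_zero, sub_zero, sub_zero] at h5
  rw [map_sub, map_pow, map_pow, h5, map_zero]

lemma two_points {A B A' B' : Form} (hA : A.IsHomogeneous 1) (hB : B.IsHomogeneous 1)
    (hA' : A'.IsHomogeneous 1) (hB' : B'.IsHomogeneous 1) {n : ℕ}
    (hne : (A ^ n - B ^ n) * (A' ^ n - B' ^ n) ≠ 0) :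
    ∃ v w : Fin 3 → ℂ, v ≠ 0 ∧ w ≠ 0 ∧ ∀ α, IsLine α → α ∣ (A ^ n - B ^ n) * (A' ^ n - B' ^ n) →
      eval v α = 0 ∨ eval w α = 0 := by
  obtain ⟨v, hv, a1, a2⟩ := common_zero hA hB
  obtain ⟨w, hw, b1, b2⟩ := common_zero hA' hB'
  refine ⟨v, w, hv, hw, fun α hα hd => ?_⟩
  rcases hα.prime.dvd_or_dvd hd with h | h
  · exact Or.inl (cone hA hB hα.2 (left_ne_zero_of_mul hne) h a1 a2)
  · exact Or.inr (cone hA' hB' hα.2 (right_ne_zero_of_mul hne) h b1 b2)

lemma Qblock_two_points {n : ℕ} {x : Fin 4 → Form} (hx : ∀ i, (x i).IsHomogeneous 1) (i : Fin 3)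
    (hne : Qblock n x i ≠ 0) :
    ∃ v w : Fin 3 → ℂ, v ≠ 0 ∧ w ≠ 0 ∧ ∀ α, IsLine α → α ∣ Qblock n x i →
      eval v α = 0 ∨ eval w α = 0 := by
  fin_cases i
  · exact two_points (hx 0) (hx 1) (hx 2) (hx 3) hne
  · exact two_points (hx 0) (hx 2) (hx 1) (hx 3) hne
  · exact two_points (hx 0) (hx 3) (hx 1) (hx 2) hne

lemma MeetOutside.symm {P : Submodule ℂ Form} {F α β : Form} (h : MeetOutside P F α β) :
    MeetOutside P F β α := by
  obtain ⟨h1, h2, h3, h4, v, h5, h6, h7⟩ := h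
  exact ⟨h2, h1, h4, h3, v, h6, h5, h7⟩

end Pool.Agent.P.MP_7bc845_ag
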